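import Pool.Agent.U180.NG.Stm

/-! Project NG (helper180), package PZ (helper354): the probability that a displaced point is in the disc. -/

set_option autoImplicit false

open MeasureTheory ProbabilityTheory Filter Topology

namespace Pool.Agent.U354.NG

open Pool.Agent.U180.NG

/-- the uniform law -/
noncomputable def nu (δ : ℝ) : Measure ℝ := (ENNReal.ofReal δ)⁻¹ • volume.restrict (Set.Icc 0 δ)

theorem nu_prob {δ : ℝ} (hδ : 0 < δ) : IsProbabilityMeasure (nu δ) := by
  refine ⟨?_⟩
  unfold nu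
  rw [Measure.smul_apply, Measure.restrict_apply_univ, Real.volume_Icc, sub_zero, smul_eq_mul]
  refine ENNReal.inv_mul_cancel ?_ ENNReal.ofReal_ne_top
  simpa using hδ

/-- the set of the pairs -/
def DD (R : ℝ) (z : ℤ × ℤ) : Set (ℝ × (ℝ × ℝ)) :=
  {p | ((z.1 : ℝ) + (p.1 + p.2.1)) ^ 2 + ((z.2 : ℝ) + p.2.2) ^ 2 ≤ R ^ 2}

theorem DD_meas (R : ℝ) (z : ℤ × ℤ) : MeasurableSet (DD R z) := by
  refine measurableSet_le ?_ measurable_const
  fun_prop

theorem disc_meas (R : ℝ) (z : ℤ × ℤ) : MeasurableSet (disc R z) := by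
  refine measurableSet_le ?_ measurable_const
  fun_prop

theorem f_meas : Measurable fun p : ℝ × (ℝ × ℝ) => (p.1 + p.2.1, p.2.2) := by
  fun_prop

theorem phi_eq {δ : ℝ} (hδ : 0 < δ) (R : ℝ) (z : ℤ × ℤ) (y : ℝ × ℝ) :
    phi δ R y z = (nu δ ((fun t => (t, y)) ⁻¹' DD R z)).toReal := by
  have hm : MeasurableSet ((fun t : ℝ => (t, y)) ⁻¹' DD R z) :=
    (DD_meas R z).preimage (by fun_prop)
  unfold nu phi
  rw [Measure.smul_apply, Measure.restrict_apply hm, smul_eq_mul, ENNReal.toReal_mul,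
    ENNReal.toReal_inv, ENNReal.toReal_ofReal hδ.le, div_eq_inv_mul]
  congr 3
  ext t
  constructor
  · rintro ⟨h1, h2⟩
    exact ⟨h2, h1⟩
  · rintro ⟨h1, h2⟩
    exact ⟨h2, h1⟩

theorem t_PZ : S_PZ := by
  intro δ μ hδ hμ
  have hν := nu_prob hδ
  have hlaw : noiseLaw δ μ = ((nu δ).prod μ).map fun p => (p.1 + p.2.1, p.2.2) := rfl
  refine ⟨?_, fun R z => ?_⟩
  · rw [hlaw]
    exact Measure.isProbabilityMeasure_map f_meas.aemeasurable
  · have hmeas : Measurable fun y : ℝ × ℝ => nu δ ((fun t => (t, y)) ⁻¹' DD R z) :=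
      measurable_measure_prodMk_right (DD_meas R z)
    have hphi : (fun y => phi δ R y z) = fun y => (nu δ ((fun t => (t, y)) ⁻¹' DD R z)).toReal := by
      funext y
      exact phi_eq hδ R z y
    have hphim : Measurable fun y => phi δ R y z := by
      rw [hphi]
      exact hmeas.ennreal_toReal
    have h0 : ∀ y, 0 ≤ phi δ R y z := by
      intro y
      rw [phi_eq hδ]
      exact ENNReal.toReal_nonneg
    have h1 : ∀ y, phi δ R y z ≤ 1 := by
      intro y
      rw [phi_eq hδ]
      have := ENNReal.toReal_mono ENNReal.one_ne_top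
        (prob_le_one (μ := nu δ) (s := (fun t => (t, y)) ⁻¹' DD R z))
      simpa using this
    refine ⟨?_, ?_, ?_⟩
    · rw [hphi]
      rw [integral_toReal hmeas.aemeasurable (Eventually.of_forall fun y => measure_lt_top _ _)]
      unfold Measure.real
      rw [hlaw, Measure.map_apply f_meas (disc_meas R z)]
      have : (fun p : ℝ × (ℝ × ℝ) => (p.1 + p.2.1, p.2.2)) ⁻¹' disc R z = DD R z := rfl
      rw [this, Measure.prod_apply_symm (DD_meas R z)]
    · refine Integrable.of_bound hphim.aestronglyMeasurable 1 (Eventually.of_forall fun y => ?_)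
      rw [Real.norm_eq_abs, abs_of_nonneg (h0 y)]
      exact h1 y
    · refine Integrable.of_bound (hphim.pow_const 2).aestronglyMeasurable 1
        (Eventually.of_forall fun y => ?_)
      rw [Real.norm_eq_abs, abs_of_nonneg (pow_nonneg (h0 y) 2)]
      exact pow_le_one₀ (h0 y) (h1 y)

end Pool.Agent.U354.NG
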